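import Pool.Agent.KS6_76.DGV.Main

/-!
# MP_86f51d_al, Q1: right-angled Artin groups and diagram groups, up to finite index

Definitions: `RAAG Γ` (`Pool.Graph.R_seed8.W391.RaagDef`) is the right-angled Artin group of the
graph `Γ`; `Gam 27` (`Pool.Graph.R_seed8.W391.Raag`) is the complement of the spider with 27 legs of
length two (55 vertices); `IsDiagramGroup` (library file `NotAllEmbed`) : isomorphic to a diagram
group of a semigroup presentation; `HasPowers` and `VirtuallyEmbedsIntoDiagramGroup`
(`Pool.Agent.KS6_76.DGV.Main`).
-/

open Filter Topology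

namespace Pool.Agent.Results.MP_86f51d_al.VirtualEmbeddings

open Pool.Agent.W391 Pool.Agent.KS6_76.DGV
open Pool.Agent.Results.MP_86f51d_al.NotAllEmbed

/-- (1) There is a finite graph whose right-angled Artin group embeds into no diagram group.
(2) Let `Γ` be a graph, finite or infinite, which contains `Gam 27` as an induced subgraph, and let
`H` be a subgroup of its right-angled Artin group `A(Γ)` which contains a power, with positive
exponent, of every standard generator (for example, a subgroup of finite index). Then `H` embeds
into no diagram group.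
(3) For such `Γ` no subgroup of finite index of `A(Γ)` embeds into any group which has a subgroup of
finite index that embeds into a diagram group.
(4) The proportion of the graphs on `n` labelled vertices for which some subgroup of finite index of
`A(Γ)` embeds into some group which has a subgroup of finite index that embeds into some diagram
group tends to `0` as `n → ∞`. -/
theorem result :
    (∃ (V : Type) (_ : Finite V) (Γ : SimpleGraph V), ∀ (G : Type) [Group G],
      IsDiagramGroup G → ¬ ∃ φ : RAAG Γ →* G, Function.Injective φ) ∧
    (∀ (V : Type) (Γ : SimpleGraph V), Nonempty (Gam 27 ↪g Γ) →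
      ∀ H : Subgroup (RAAG Γ), HasPowers H → ∀ (G : Type) [Group G], IsDiagramGroup G →
        ¬ ∃ φ : H →* G, Function.Injective φ) ∧
    (∀ (V : Type) (Γ : SimpleGraph V), Nonempty (Gam 27 ↪g Γ) →
      ¬ VirtuallyEmbedsIntoDiagramGroup Γ) ∧
    Tendsto (fun n : ℕ =>
      (Nat.card {Γ : SimpleGraph (Fin n) // VirtuallyEmbedsIntoDiagramGroup Γ} : ℝ) /
        Nat.card (SimpleGraph (Fin n))) atTop (𝓝 0) := by
  refine ⟨Pool.Agent.Results.MP_86f51d_al.NotAllEmbed.result, ?_, ?_, virtual_proportion⟩
  · rintro V Γ ⟨f⟩ H hH G _ hG ⟨φ, hφ⟩
    exact no_powers f H hH G hG φ hφ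
  · rintro V Γ ⟨f⟩
    exact no_virtual f

end Pool.Agent.Results.MP_86f51d_al.VirtualEmbeddings
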